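import Pool.Agent.N586.BP.Core

/-! Limit points of the quotients `P(x) / (log x)^m`. -/

set_option autoImplicit false

namespace Pool.Agent.D0H40.PL

open Filter Topology Classical
open Pool.Agent.W263.BSD

variable {a b : ℤ}

/-- the quotient -/
noncomputable def gq (a b : ℤ) (m : ℕ) (x : ℝ) : ℝ := bsdProduct a b x / Real.log x ^ m

/-- discrete intermediate values -/
theorem cluster {g : ℕ → ℝ} (hpos : ∀ᶠ n in atTop, 0 < g n)
    (hr : Tendsto (fun n => g (n + 1) / g n) atTop (𝓝 1)) {v : ℝ}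
    (h1 : ∀ ε : ℝ, 0 < ε → ∃ᶠ n in atTop, g n < v + ε)
    (h2 : ∀ ε : ℝ, 0 < ε → ∃ᶠ n in atTop, v - ε < g n) {ε : ℝ} (hε : 0 < ε) :
    ∃ᶠ n in atTop, |g n - v| < ε := by
  by_contra hcon
  rw [not_frequently] at hcon
  have hη : 0 < ε / (|v| + 1) := by positivity
  have h3 : ∀ᶠ n in atTop, g (n + 1) / g n < 1 + ε / (|v| + 1) :=
    hr.eventually (gt_mem_nhds (by linarith))
  obtain ⟨N, hN⟩ := eventually_atTop.1 (hcon.and (hpos.and h3))
  obtain ⟨n0, hn0, hlow⟩ := (frequently_atTop.1 (h1 ε hε)) N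
  have hstep : ∀ n, N ≤ n → g n ≤ v - ε → g (n + 1) ≤ v - ε := by
    intro n hn hle
    obtain ⟨e1, e2, e3⟩ := hN n hn
    obtain ⟨e4, -, -⟩ := hN (n + 1) (by omega)
    rw [div_lt_iff₀ e2] at e3
    push Not at e4
    have hv0 : 0 < v := by linarith
    have e5 : (1 + ε / (|v| + 1)) * g n ≤ (1 + ε / (|v| + 1)) * (v - ε) :=
      mul_le_mul_of_nonneg_left hle (by positivity)
    have e6 : ε / (|v| + 1) * (v - ε) ≤ ε := by
      rw [div_mul_eq_mul_div, div_le_iff₀ (by positivity)]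
      have := le_abs_self v
      nlinarith
    have e7 : g (n + 1) < v := by nlinarith
    rcases abs_cases (g (n + 1) - v) with ⟨h, h'⟩ | ⟨h, h'⟩
    · linarith
    · linarith
  have hall : ∀ k, g (n0 + k) ≤ v - ε := by
    intro k
    induction k with
    | zero =>
      have e1 := (hN n0 hn0).1
      push Not at e1
      rcases abs_cases (g n0 - v) with ⟨h, h'⟩ | ⟨h, h'⟩
      · linarith
      · simpa using (by linarith : g n0 ≤ v - ε)
    | succ k ih => exact hstep (n0 + k) (by omega) ih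
  obtain ⟨n1, hn1, h5⟩ := (frequently_atTop.1 (h2 ε hε)) n0
  have := hall (n1 - n0)
  rw [Nat.add_sub_cancel' hn1] at this
  linarith

/-- the product at consecutive integers -/
theorem succ_ratio (n : ℕ) (hn : 5 ≤ n) :
    |bsdProduct a b ((n + 1 : ℕ) : ℝ) / bsdProduct a b (n : ℝ) - 1| ≤ 3 / √(n : ℝ) := by
  have hn0 : (0 : ℝ) < n := by exact_mod_cast (by omega : 0 < n)
  have hs : 0 < √(n : ℝ) := Real.sqrt_pos.2 hn0
  have h1 : bsdProduct a b ((n + 1 : ℕ) : ℝ) = bsdProduct a b (n : ℝ) *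
      (if GoodPrime a b (n + 1) then (((pointCount a b (n + 1) : ℝ) + 1) / ((n + 1 : ℕ) : ℝ)) else 1) := by
    unfold bsdProduct
    rw [Nat.floor_natCast, Nat.floor_natCast, Finset.range_add_one (n := n + 1), Finset.filter_insert]
    split_ifs with h
    · rw [Finset.prod_insert (by simp)]
      ring
    · rw [mul_one]
  have hb := bsdProduct_pos (a := a) (b := b) (n : ℝ)
  rw [h1, mul_div_cancel_left₀ _ hb.ne']
  split_ifs with h
  · have h2 := hasse h (by omega)
    set p : ℕ := n + 1 with hp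
    have hp0 : (0 : ℝ) < (p : ℝ) := by rw [hp]; positivity
    have h3 : ((pointCount a b p : ℝ) + 1) / (p : ℝ) - 1 =
        (1 - ((p : ℝ) - pointCount a b p)) / p := by
      field_simp
      ring
    have hsp : √(p : ℝ) * √(p : ℝ) = p := Real.mul_self_sqrt hp0.le
    have hs1 : 1 ≤ √(p : ℝ) := by
      rw [Real.one_le_sqrt]
      have : (1 : ℝ) ≤ (p : ℝ) := by exact_mod_cast (by omega : 1 ≤ p)
      exact this
    rw [h3, abs_div, abs_of_pos hp0, div_le_div_iff₀ hp0 hs]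
    have h4 : |1 - ((p : ℝ) - pointCount a b p)| ≤ 3 * √(p : ℝ) := by
      have := abs_sub 1 ((p : ℝ) - pointCount a b p)
      rw [abs_one] at this
      linarith
    have h5 : √(n : ℝ) ≤ √(p : ℝ) := Real.sqrt_le_sqrt (by rw [hp]; push_cast; linarith)
    calc _ ≤ 3 * √(p : ℝ) * √(n : ℝ) := mul_le_mul_of_nonneg_right h4 hs.le
      _ ≤ 3 * √(p : ℝ) * √(p : ℝ) := mul_le_mul_of_nonneg_left h5 (by positivity)
      _ = 3 * p := by rw [mul_assoc, hsp]
  · rw [sub_self, abs_zero]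
    positivity

theorem bsd_succ : Tendsto (fun n : ℕ => bsdProduct a b ((n + 1 : ℕ) : ℝ) / bsdProduct a b (n : ℝ))
    atTop (𝓝 1) := by
  rw [tendsto_iff_dist_tendsto_zero]
  refine squeeze_zero' (g := fun n : ℕ => 3 / √(n : ℝ)) (Eventually.of_forall fun _ => dist_nonneg) ?_ ?_
  · filter_upwards [eventually_ge_atTop 5] with n hn
    rw [Real.dist_eq]
    exact succ_ratio n hn
  · exact Tendsto.const_div_atTop (Real.tendsto_sqrt_atTop.comp tendsto_natCast_atTop_atTop) 3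

/-- `log ⌊x⌋ / log x → 1` -/
theorem log_floor : Tendsto (fun x : ℝ => Real.log ⌊x⌋₊ / Real.log x) atTop (𝓝 1) := by
  have h1 : Tendsto (fun x : ℝ => 1 - Real.log 2 / Real.log x) atTop (𝓝 (1 - 0)) :=
    tendsto_const_nhds.sub (Tendsto.const_div_atTop Real.tendsto_log_atTop _)
  rw [sub_zero] at h1
  refine tendsto_of_tendsto_of_tendsto_of_le_of_le' h1 tendsto_const_nhds ?_ ?_
  · filter_upwards [eventually_gt_atTop 4] with x hx
    have hl : 0 < Real.log x := Real.log_pos (by linarith)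
    have hf : x / 2 ≤ (⌊x⌋₊ : ℝ) := by
      have := Nat.lt_floor_add_one x
      linarith
    rw [sub_le_iff_le_add, ← add_div, le_div_iff₀ hl, one_mul]
    have := Real.log_le_log (by linarith) hf
    rw [Real.log_div (by linarith) two_ne_zero] at this
    linarith
  · filter_upwards [eventually_gt_atTop 4] with x hx
    have hl : 0 < Real.log x := Real.log_pos (by linarith)
    rw [div_le_one hl]
    refine Real.log_le_log ?_ (Nat.floor_le (by linarith))
    have : 1 ≤ ⌊x⌋₊ := Nat.le_floor (by push_cast; linarith)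
    exact_mod_cast this

theorem bsd_floor (x : ℝ) : bsdProduct a b (⌊x⌋₊ : ℝ) = bsdProduct a b x := by
  unfold bsdProduct
  rw [Nat.floor_natCast]

theorem gq_pos (m : ℕ) {x : ℝ} (hx : 1 < x) : 0 < gq a b m x :=
  div_pos (bsdProduct_pos _) (pow_pos (Real.log_pos hx) _)

theorem gq_floor (m : ℕ) : Tendsto (fun x : ℝ => gq a b m ⌊x⌋₊ / gq a b m x) atTop (𝓝 1) := by
  have h1 := (log_floor.inv₀ one_ne_zero).pow m
  rw [inv_one, one_pow] at h1
  refine h1.congr' ?_
  filter_upwards [eventually_gt_atTop 4] with x hx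
  have hl : 0 < Real.log x := Real.log_pos (by linarith)
  have hf : 1 < (⌊x⌋₊ : ℝ) := by
    have : 2 ≤ ⌊x⌋₊ := Nat.le_floor (by push_cast; linarith)
    exact_mod_cast this
  have hl2 : 0 < Real.log (⌊x⌋₊ : ℝ) := Real.log_pos hf
  unfold gq
  rw [bsd_floor]
  have hb := bsdProduct_pos (a := a) (b := b) x
  rw [inv_div, div_pow]
  field_simp

theorem log_succ : Tendsto (fun n : ℕ => Real.log (n : ℝ) / Real.log ((n + 1 : ℕ) : ℝ)) atTop (𝓝 1) := by
  have h1 : Tendsto (fun n : ℕ => 1 - Real.log 2 / Real.log ((n + 1 : ℕ) : ℝ)) atTop (𝓝 (1 - 0)) := by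
    refine tendsto_const_nhds.sub (Tendsto.const_div_atTop ?_ _)
    exact Real.tendsto_log_atTop.comp
      (tendsto_natCast_atTop_atTop.comp (tendsto_add_atTop_nat 1))
  rw [sub_zero] at h1
  refine tendsto_of_tendsto_of_tendsto_of_le_of_le' h1 tendsto_const_nhds ?_ ?_
  · filter_upwards [eventually_ge_atTop 2] with n hn
    have hn' : (2 : ℝ) ≤ n := by exact_mod_cast hn
    have hl : 0 < Real.log ((n + 1 : ℕ) : ℝ) := Real.log_pos (by push_cast; linarith)
    rw [sub_le_iff_le_add, ← add_div, le_div_iff₀ hl, one_mul, ← Real.log_mul (by linarith) two_ne_zero]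
    exact Real.log_le_log (by push_cast; linarith) (by push_cast; linarith)
  · filter_upwards [eventually_ge_atTop 2] with n hn
    have hn' : (2 : ℝ) ≤ n := by exact_mod_cast hn
    have hl : 0 < Real.log ((n + 1 : ℕ) : ℝ) := Real.log_pos (by push_cast; linarith)
    rw [div_le_one hl]
    exact Real.log_le_log (by linarith) (by push_cast; linarith)

theorem gq_succ (m : ℕ) : Tendsto (fun n : ℕ => gq a b m ((n + 1 : ℕ) : ℝ) / gq a b m (n : ℝ)) atTop (𝓝 1) := by
  have h1 := (bsd_succ (a := a) (b := b)).mul (log_succ.pow m)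
  rw [one_pow, one_mul] at h1
  refine h1.congr' ?_
  filter_upwards [eventually_ge_atTop 2] with n hn
  have hn' : (2 : ℝ) ≤ n := by exact_mod_cast hn
  have hl : 0 < Real.log (n : ℝ) := Real.log_pos (by linarith)
  have hl2 : 0 < Real.log ((n + 1 : ℕ) : ℝ) := Real.log_pos (by push_cast; linarith)
  have hb := bsdProduct_pos (a := a) (b := b) (n : ℝ)
  unfold gq
  rw [div_pow]
  field_simp

/-- `A` is a limit point of the quotients along a sequence tending to infinity -/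
def LP (a b : ℤ) (m : ℕ) (A : ℝ) : Prop :=
  ∃ x : ℕ → ℝ, Tendsto x atTop atTop ∧ Tendsto (fun n => gq a b m (x n)) atTop (𝓝 A)

theorem LP.freq {m : ℕ} {A : ℝ} (h : LP a b m A) {ε : ℝ} (hε : 0 < ε) :
    ∃ᶠ n : ℕ in atTop, |gq a b m (n : ℝ) - A| < ε := by
  obtain ⟨x, hx, hg⟩ := h
  have h1 : Tendsto (fun n => gq a b m (⌊x n⌋₊ : ℝ)) atTop (𝓝 A) := by
    have h2 := (gq_floor (a := a) (b := b) m).comp hx
    have h3 := h2.mul hg
    rw [one_mul] at h3
    refine h3.congr' ?_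
    filter_upwards [hx.eventually (eventually_gt_atTop 1)] with n hn
    have := gq_pos (a := a) (b := b) m hn
    simp only [Function.comp_apply]
    field_simp
  have h2 : ∀ᶠ n in atTop, |gq a b m (⌊x n⌋₊ : ℝ) - A| < ε := by
    have := (Metric.tendsto_nhds.1 h1) ε hε
    simpa [Real.dist_eq] using this
  have h3 : Tendsto (fun n => ⌊x n⌋₊) atTop atTop := tendsto_nat_floor_atTop.comp hx
  exact h3.frequently h2.frequently

theorem LP.of_freq {m : ℕ} {A : ℝ}
    (h : ∀ ε : ℝ, 0 < ε → ∃ᶠ n : ℕ in atTop, |gq a b m (n : ℝ) - A| < ε) : LP a b m A := by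
  have h1 : MapClusterPt A atTop (fun n : ℕ => gq a b m (n : ℝ)) := by
    rw [mapClusterPt_iff_frequently]
    intro s hs
    obtain ⟨ε, hε, hs'⟩ := Metric.mem_nhds_iff.1 hs
    refine (h ε hε).mono fun n hn => hs' ?_
    rw [Metric.mem_ball, Real.dist_eq]
    exact hn
  obtain ⟨ψ, h2, h3⟩ := TopologicalSpace.FirstCountableTopology.tendsto_subseq h1
  exact ⟨fun n => (ψ n : ℝ), tendsto_natCast_atTop_atTop.comp h2.tendsto_atTop, h3⟩

theorem LP.of_brackets {m : ℕ} {A : ℝ}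
    (h1 : ∀ ε : ℝ, 0 < ε → ∃ᶠ n : ℕ in atTop, gq a b m (n : ℝ) < A + ε)
    (h2 : ∀ ε : ℝ, 0 < ε → ∃ᶠ n : ℕ in atTop, A - ε < gq a b m (n : ℝ)) : LP a b m A := by
  refine LP.of_freq fun ε hε => cluster (g := fun n : ℕ => gq a b m (n : ℝ)) ?_
    (gq_succ m) h1 h2 hε
  filter_upwards [eventually_ge_atTop 2] with n hn
  refine gq_pos m ?_
  exact_mod_cast (by omega : 1 < n)

theorem LP.between {m : ℕ} {u v w : ℝ} (huv : u ≤ v) (hvw : v ≤ w) (hu : LP a b m u)
    (hw : LP a b m w) : LP a b m v := by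
  refine LP.of_brackets (fun ε hε => ?_) (fun ε hε => ?_)
  · refine (hu.freq hε).mono fun n hn => ?_
    have := (abs_lt.1 hn).2
    linarith
  · refine (hw.freq hε).mono fun n hn => ?_
    have := (abs_lt.1 hn).1
    linarith

/-- from real arguments to integers, upper bounds -/
theorem freq_lt {m : ℕ} {A B : ℝ} (hA : 0 < A) (hAB : A < B)
    (h : ∃ᶠ x : ℝ in atTop, gq a b m x < A) : ∃ᶠ n : ℕ in atTop, gq a b m (n : ℝ) < B := by
  have h1 : ∀ᶠ x : ℝ in atTop, gq a b m ⌊x⌋₊ / gq a b m x < B / A :=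
    (gq_floor m).eventually (gt_mem_nhds (by rw [lt_div_iff₀ hA]; linarith))
  have h2 : ∃ᶠ x : ℝ in atTop, gq a b m (⌊x⌋₊ : ℝ) < B := by
    refine (h.and_eventually (h1.and (eventually_gt_atTop 1))).mono ?_
    rintro x ⟨e1, e2, e3⟩
    have e4 := gq_pos (a := a) (b := b) m e3
    rw [div_lt_div_iff₀ e4 hA] at e2
    nlinarith
  exact tendsto_nat_floor_atTop.frequently h2

/-- from real arguments to integers, lower bounds -/
theorem freq_gt {m : ℕ} {A B : ℝ} (hB : 0 < B) (hAB : A < B)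
    (h : ∃ᶠ x : ℝ in atTop, B < gq a b m x) : ∃ᶠ n : ℕ in atTop, A < gq a b m (n : ℝ) := by
  have h1 : ∀ᶠ x : ℝ in atTop, A / B < gq a b m ⌊x⌋₊ / gq a b m x :=
    (gq_floor m).eventually (lt_mem_nhds (by rw [div_lt_iff₀ hB]; linarith))
  have h2 : ∃ᶠ x : ℝ in atTop, A < gq a b m (⌊x⌋₊ : ℝ) := by
    refine (h.and_eventually (h1.and (eventually_gt_atTop 1))).mono ?_
    rintro x ⟨e1, e2, e3⟩
    have e4 := gq_pos (a := a) (b := b) m e3
    rw [div_lt_div_iff₀ hB e4] at e2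
    have e5 : 0 < gq a b m (⌊x⌋₊ : ℝ) ∨ gq a b m (⌊x⌋₊ : ℝ) ≤ 0 := lt_or_ge _ _
    by_contra hcon
    push Not at hcon
    rcases le_or_gt A 0 with hA0 | hA0
    · have e6 : gq a b m (⌊x⌋₊ : ℝ) * B ≤ A * B := mul_le_mul_of_nonneg_right hcon hB.le
      have e7 : A * gq a b m x ≤ A * B := by nlinarith
      have e8 : 0 ≤ gq a b m (⌊x⌋₊ : ℝ) := by
        unfold gq
        refine div_nonneg (bsdProduct_pos _).le (pow_nonneg ?_ _)
        exact Real.log_natCast_nonneg _
      have e9 : A * gq a b m x ≤ 0 := mul_nonpos_of_nonpos_of_nonneg hA0 e4.le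
      nlinarith
    · nlinarith
  exact tendsto_nat_floor_atTop.frequently h2

end Pool.Agent.D0H40.PL
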