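import Pool.Agent.D0H40.PL.Core

/-! Brackets for the product itself and one-sided bounds. -/

set_option autoImplicit false

namespace Pool.Agent.D0H40.PL

open Filter Topology Classical
open Pool.Agent.W263.BSD

variable {a b : ℤ}

/-- Goldfeld's constant -/
noncomputable abbrev T1 (F : ℂ → ℂ) (r : ℕ) : ℝ := Pool.Agent.N586.BP.TT F r

/-- the second order correction -/
noncomputable def corr (a b : ℤ) (x : ℝ) : ℝ :=
  ∑ p ∈ (Finset.range (⌊x⌋₊ + 1)).filter (fun p => GoodPrime a b p ∧ √x < p),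
    (((p : ℝ) - pointCount a b p) ^ 2 - 2 * p) / (2 * (p : ℝ) ^ 2)

theorem star_eq (x : ℝ) : bsdStar a b x = bsdProduct a b x * Real.exp (corr a b x) := rfl

theorem kappa (hΔ : 4 * a ^ 3 + 27 * b ^ 2 ≠ 0) (hrs : Tendsto (rsSum a b) atTop (𝓝 0)) :
    Tendsto (fun x : ℝ => Real.exp (-corr a b x)) atTop (𝓝 (√2)) := by
  have h := (corr_tendsto hΔ hrs).neg.rexp
  have h5 : Real.exp (-(-(Real.log 2 / 2))) = √2 := by
    rw [neg_neg, Real.sqrt_eq_rpow, Real.rpow_def_of_pos two_pos]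
    congr 1; ring
  rw [h5] at h
  exact h

theorem gq_eq (m : ℕ) (x : ℝ) : gq a b m x = bsdStar a b x / Real.log x ^ m * Real.exp (-corr a b x) := by
  unfold gq
  rw [star_eq, mul_div_right_comm, mul_assoc, ← Real.exp_add, add_neg_cancel, Real.exp_zero, mul_one]

theorem T1_pos {F : ℂ → ℂ} (hF : IsLSeries a b F) {r : ℕ} (hr : analyticOrderAt F 1 = r) :
    0 < T1 F r := by
  obtain ⟨hpos, _⟩ := lead_limit hF.1 hr
  unfold T1 Pool.Agent.N586.BP.TT
  positivity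

theorem br_up (hΔ : 4 * a ^ 3 + 27 * b ^ 2 ≠ 0) (hrs : Tendsto (rsSum a b) atTop (𝓝 0))
    {F : ℂ → ℂ} (hF : IsLSeries a b F) {r : ℕ} (hr : analyticOrderAt F 1 = r) {A : ℝ}
    (hA : A < T1 F r) : ∃ᶠ x : ℝ in atTop, A < gq a b r x := by
  set T0 : ℝ := Real.exp (r * Real.eulerMascheroniConstant) / leadAbs F r with hT0
  have h2 : 0 < √(2 : ℝ) := Real.sqrt_pos.2 two_pos
  have h3 : A / √2 < T0 := by
    rw [div_lt_iff₀ h2, mul_comm]
    exact hA
  have h4 : Tendsto (fun x : ℝ => A / Real.exp (-corr a b x)) atTop (𝓝 (A / √2)) :=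
    tendsto_const_nhds.div (kappa hΔ hrs) h2.ne'
  have h5 : ∀ᶠ x : ℝ in atTop, A / Real.exp (-corr a b x) < T0 - (T0 - A / √2) / 2 :=
    h4.eventually (gt_mem_nhds (by linarith))
  have h6 := bracket_up hF hr (show 0 < (T0 - A / √2) / 2 by linarith)
  refine (h6.and_eventually (h5.and (eventually_gt_atTop 1))).mono ?_
  rintro x ⟨e1, e2, e3⟩
  have hl : 0 < Real.log x ^ r := pow_pos (Real.log_pos e3) _
  rw [gq_eq]
  rw [← lt_div_iff₀ hl] at e1
  have e4 := e2.trans e1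
  rwa [div_lt_iff₀ (Real.exp_pos _)] at e4

theorem br_down (hΔ : 4 * a ^ 3 + 27 * b ^ 2 ≠ 0) (hrs : Tendsto (rsSum a b) atTop (𝓝 0))
    {F : ℂ → ℂ} (hF : IsLSeries a b F) {r : ℕ} (hr : analyticOrderAt F 1 = r)
    (hne : ∀ s : ℝ, 1 < s → F s ≠ 0) {A : ℝ}
    (hA : T1 F r < A) : ∃ᶠ x : ℝ in atTop, gq a b r x < A := by
  set T0 : ℝ := Real.exp (r * Real.eulerMascheroniConstant) / leadAbs F r with hT0
  have h2 : 0 < √(2 : ℝ) := Real.sqrt_pos.2 two_pos
  have h3 : T0 < A / √2 := by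
    rw [lt_div_iff₀ h2, mul_comm]
    exact hA
  have h4 : Tendsto (fun x : ℝ => A / Real.exp (-corr a b x)) atTop (𝓝 (A / √2)) :=
    tendsto_const_nhds.div (kappa hΔ hrs) h2.ne'
  have h5 : ∀ᶠ x : ℝ in atTop, T0 + (A / √2 - T0) / 2 < A / Real.exp (-corr a b x) :=
    h4.eventually (lt_mem_nhds (by linarith))
  have h6 := bracket_down hF hr hne (show 0 < (A / √2 - T0) / 2 by linarith)
  refine (h6.and_eventually (h5.and (eventually_gt_atTop 1))).mono ?_
  rintro x ⟨e1, e2, e3⟩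
  have hl : 0 < Real.log x ^ r := pow_pos (Real.log_pos e3) _
  rw [gq_eq]
  rw [← div_lt_iff₀ hl] at e1
  have e4 := e1.trans e2
  rwa [lt_div_iff₀ (Real.exp_pos _)] at e4

/-- Goldfeld's constant is a limit point -/
theorem limit_point (hΔ : 4 * a ^ 3 + 27 * b ^ 2 ≠ 0) (hrs : Tendsto (rsSum a b) atTop (𝓝 0))
    {F : ℂ → ℂ} (hF : IsLSeries a b F) {r : ℕ} (hr : analyticOrderAt F 1 = r)
    (hne : ∀ s : ℝ, 1 < s → F s ≠ 0) : LP a b r (T1 F r) := by
  have hT := T1_pos hF hr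
  refine LP.of_brackets (fun ε hε => ?_) (fun ε hε => ?_)
  · exact freq_lt (A := T1 F r + ε / 2) (by linarith) (by linarith)
      (br_down hΔ hrs hF hr hne (by linarith))
  · have h1 : 0 < max (T1 F r - ε / 2) (T1 F r / 2) := lt_of_lt_of_le (by linarith) (le_max_right _ _)
    exact freq_gt (B := max (T1 F r - ε / 2) (T1 F r / 2)) h1
      (lt_of_lt_of_le (by linarith) (le_max_left _ _))
      (br_up hΔ hrs hF hr (max_lt (by linarith) (by linarith)))

/-- a positive limit point without the theorem of Rankin and Selberg -/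
theorem limit_point' {F : ℂ → ℂ} (hF : IsLSeries a b F) {r : ℕ} (hr : analyticOrderAt F 1 = r)
    (hne : ∀ s : ℝ, 1 < s → F s ≠ 0) : ∃ A : ℝ, 0 < A ∧ LP a b r A := by
  obtain ⟨M1, h1⟩ := upper hF hr 0
  obtain ⟨M2, h2⟩ := lower hF hr hne 0
  have hlog : ∀ {x : ℝ}, 1 < x → Real.log (gq a b r x) =
      rieszMean a b 0 x - r * Real.log (Real.log x) := by
    intro x hx
    have hl := Real.log_pos hx
    unfold gq
    rw [Real.log_div (bsdProduct_pos _).ne' (pow_pos hl _).ne', log_bsdProduct, Real.log_pow]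
  have h3 : ∃ᶠ x : ℝ in atTop, Real.exp (-M1) < gq a b r x := by
    refine (h1.and_eventually (eventually_gt_atTop 1)).mono ?_
    rintro x ⟨e1, e2⟩
    rw [← Real.lt_log_iff_exp_lt (gq_pos r e2), hlog e2]
    linarith
  have h4 : ∃ᶠ x : ℝ in atTop, gq a b r x < Real.exp M2 := by
    refine (h2.and_eventually (eventually_gt_atTop 1)).mono ?_
    rintro x ⟨e1, e2⟩
    rw [← Real.log_lt_iff_lt_exp (gq_pos r e2), hlog e2]
    linarith
  have e1 := Real.exp_pos (-M1)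
  have e2 := Real.exp_pos M2
  have h5 := freq_gt (A := Real.exp (-M1) / 2) e1 (by linarith) h3
  have h6 := freq_lt (B := Real.exp M2 * 2) e2 (by linarith) h4
  by_cases h7 : ∃ᶠ n : ℕ in atTop, gq a b r (n : ℝ) ∈ Set.Icc (Real.exp (-M1) / 2) (Real.exp M2 * 2)
  · obtain ⟨A, hA, φ, hφ, hlim⟩ := isCompact_Icc.tendsto_subseq' h7
    exact ⟨A, lt_of_lt_of_le (by positivity) hA.1,
      fun n => (φ n : ℝ), tendsto_natCast_atTop_atTop.comp hφ.tendsto_atTop, hlim⟩
  · rw [not_frequently] at h7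
    refine ⟨Real.exp (-M1) / 2, by positivity, LP.of_brackets (fun ε hε => ?_) fun ε hε =>
      h5.mono fun n hn => by linarith⟩
    refine (h6.and_eventually h7).mono ?_
    rintro n ⟨e3, e4⟩
    by_contra h8
    push Not at h8
    exact e4 ⟨by linarith, e3.le⟩

theorem log_gq {r : ℕ} {x : ℝ} (hx : 1 < x) : Real.log (gq a b r x) =
    rieszMean a b 0 x - r * Real.log (Real.log x) := by
  have hl := Real.log_pos hx
  unfold gq
  rw [Real.log_div (bsdProduct_pos _).ne' (pow_pos hl _).ne', log_bsdProduct, Real.log_pow]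

theorem loglog_top : Tendsto (fun x : ℝ => Real.log (Real.log x)) atTop atTop :=
  Real.tendsto_log_atTop.comp Real.tendsto_log_atTop

/-- one-sided upper bounds -/
theorem one_upper {F : ℂ → ℂ} (hF : IsLSeries a b F) {r : ℕ} (hr : analyticOrderAt F 1 = r) {ρ : ℝ}
    (h : ∀ ε : ℝ, 0 < ε → ∀ᶠ x : ℝ in atTop, bsdProduct a b x ≤ Real.log x ^ (ρ + ε)) :
    (∀ s : ℂ, 1 < s.re → F s ≠ 0) ∧ (r : ℝ) ≤ ρ := by
  have hlog : ∀ ε : ℝ, 0 < ε → ∀ᶠ x : ℝ in atTop,
      rieszMean a b 0 x ≤ (ρ + ε) * Real.log (Real.log x) := by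
    intro ε hε
    filter_upwards [h ε hε, eventually_gt_atTop 1] with x h1 h2
    have hl := Real.log_pos h2
    rw [← log_bsdProduct, ← Real.log_rpow hl]
    exact Real.log_le_log (bsdProduct_pos _) h1
  refine ⟨fun s hs => no_zeros_of_loglog hF 0 (hlog 1 one_pos) hs, ?_⟩
  by_contra hcon
  push Not at hcon
  obtain ⟨M, hM⟩ := upper hF hr 0
  have h1 := hlog (((r : ℝ) - ρ) / 2) (by linarith)
  have h2 : ∀ᶠ x : ℝ in atTop, M / (((r : ℝ) - ρ) / 2) < Real.log (Real.log x) :=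
    loglog_top.eventually (eventually_gt_atTop _)
  obtain ⟨x, e1, e2, e3⟩ := (hM.and_eventually (h1.and h2)).exists
  rw [div_lt_iff₀ (by linarith)] at e3
  nlinarith

/-- one-sided lower bounds -/
theorem one_lower {F : ℂ → ℂ} (hF : IsLSeries a b F) {r : ℕ} (hr : analyticOrderAt F 1 = r)
    (hne : ∀ s : ℝ, 1 < s → F s ≠ 0) {ρ : ℝ}
    (h : ∀ ε : ℝ, 0 < ε → ∀ᶠ x : ℝ in atTop, Real.log x ^ (ρ - ε) ≤ bsdProduct a b x) :
    ρ ≤ (r : ℝ) := by
  have hlog : ∀ ε : ℝ, 0 < ε → ∀ᶠ x : ℝ in atTop,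
      (ρ - ε) * Real.log (Real.log x) ≤ rieszMean a b 0 x := by
    intro ε hε
    filter_upwards [h ε hε, eventually_gt_atTop 1] with x h1 h2
    have hl := Real.log_pos h2
    rw [← log_bsdProduct, ← Real.log_rpow hl]
    exact Real.log_le_log (Real.rpow_pos_of_pos hl _) h1
  by_contra hcon
  push Not at hcon
  obtain ⟨M, hM⟩ := lower hF hr hne 0
  have h1 := hlog ((ρ - (r : ℝ)) / 2) (by linarith)
  have h2 : ∀ᶠ x : ℝ in atTop, M / ((ρ - (r : ℝ)) / 2) < Real.log (Real.log x) :=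
    loglog_top.eventually (eventually_gt_atTop _)
  obtain ⟨x, e1, e2, e3⟩ := (hM.and_eventually (h1.and h2)).exists
  rw [div_lt_iff₀ (by linarith)] at e3
  nlinarith

end Pool.Agent.D0H40.PL
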