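import Pool.Agent.D0H40.PL.Main

/-! Failure of the Riemann hypothesis makes the products of Birch and Swinnerton-Dyer wild. -/

set_option autoImplicit false

namespace Pool.Agent.D0H40.PL

open Filter Topology Classical
open Pool.Agent.W263.BSD

/-- one-sided lower bounds imply convergence to the right of the real zeros -/
theorem conv_lower {c0 : ℝ} {m : ℕ} {a : ℝ → ℝ} {Φ G : ℂ → ℂ} (D : Data m a Φ G c0)
    (hloc : ∀ u, |a u| ≤ Real.exp (2 * u) + Real.exp u) {w0 : ℝ} (hw0 : 0 ≤ w0)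
    (hne : ∀ w : ℝ, w0 < w → Φ w ≠ 0)
    (h : ∀ ε > 0, ∀ᶠ u in atTop, -Real.exp ((w0 + ε) * u) ≤ a u) : ∀ w > w0, LInt a w := by
  intro w hw
  set e : ℝ := (w - w0) / 2 with he
  have he0 : 0 < e := by rw [he]; linarith
  obtain ⟨U, hU⟩ := eventually_atTop.mp (h e he0)
  set V : ℝ := max U 1 with hV
  set K : ℝ := Real.exp (2 * V) + Real.exp V with hK
  set κ : ℝ → ℝ := fun u => (-1) * ex (w0 + e) u + (-K) * ex 0 u with hκ
  have hκm : Measurable κ := ((ex_meas _).const_mul _).add ((ex_meas 0).const_mul _)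
  have hκi : ∀ w' > w0 + e, LInt κ w' := fun w' hw' =>
    ((ex_LInt hw').const_mul _).add ((ex_LInt (by linarith)).const_mul _)
  refine D.core (by linarith) hκm hκi (Or.inr rfl) (fun u hu => ?_)
    (fun s hs _ => hne s (by linarith)) w (by rw [he]; linarith)
  rw [hκ]
  simp only [ex, zero_mul, Real.exp_zero, mul_one]
  rcases le_or_gt V u with h2 | h2
  · have h3 := hU u ((le_max_left _ _).trans h2)
    have : 0 ≤ K := by positivity
    linarith
  · have h3 := (abs_le.mp (hloc u)).1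
    have h5 : Real.exp u ≤ Real.exp V := Real.exp_le_exp.mpr h2.le
    have h5' : Real.exp (2 * u) ≤ Real.exp (2 * V) := Real.exp_le_exp.mpr (by linarith)
    have := Real.exp_pos ((w0 + e) * u)
    linarith

/-- some of the rightmost zeros of `F` is real and greater than `1` -/
def RealDom (F : ℂ → ℂ) : Prop :=
  ∃ s0 : ℝ, 1 < s0 ∧ F s0 = 0 ∧ ∀ s : ℂ, s0 < s.re → F s ≠ 0

/-- the largest positive real zero -/
theorem largest {c0 : ℝ} {m : ℕ} {a : ℝ → ℝ} {Φ G : ℂ → ℂ} (D : Data m a Φ G c0) :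
    ∃ w0 : ℝ, 0 ≤ w0 ∧ (∀ w : ℝ, w0 < w → Φ w ≠ 0) ∧ (0 < w0 → Φ w0 = 0) := by
  set Z : Set ℝ := {w | 0 < w ∧ Φ w = 0} with hZ
  by_cases hne : Z.Nonempty
  · have hb : BddAbove Z := by
      refine ⟨c0, fun w hw => ?_⟩
      by_contra hcon
      push Not at hcon
      have h1 := D.eq w (by simpa using hcon)
      rw [hw.2] at h1
      exact (Complex.exp_ne_zero _) h1.symm
    obtain ⟨z, hz⟩ := hne
    have hpos : 0 < sSup Z := lt_of_lt_of_le hz.1 (le_csSup hb hz)
    refine ⟨sSup Z, hpos.le, fun w hw h0 => ?_, fun _ => ?_⟩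
    · have : w ∈ Z := ⟨hpos.trans hw, h0⟩
      have := le_csSup hb this
      linarith
    · have hc : IsClosed {w : ℝ | Φ w = 0} :=
        isClosed_eq (D.hΦ.continuous.comp Complex.continuous_ofReal) continuous_const
      have h1 : sSup Z ∈ closure Z := csSup_mem_closure ⟨z, hz⟩ hb
      have h2 : Z ⊆ {w : ℝ | Φ w = 0} := fun w hw => hw.2
      exact hc.closure_subset_iff.2 h2 h1
  · refine ⟨0, le_rfl, fun w hw h0 => hne ⟨w, hw, h0⟩, fun h => absurd h (lt_irrefl 0)⟩

variable {a b : ℤ}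

/-- a subexponential lower bound implies the Riemann hypothesis, if there is no dominating real zero -/
theorem no_zeros_lower {F : ℂ → ℂ} (hF : IsLSeries a b F) (hdom : ¬ RealDom F)
    (h : ∀ ε : ℝ, 0 < ε → ∀ᶠ x : ℝ in atTop, -x ^ ε ≤ rieszMean a b 0 x) {s : ℂ} (hs : 1 < s.re) :
    F s ≠ 0 := by
  obtain ⟨B, hB0, hB⟩ := riesz_approx a b
  obtain ⟨w0, h0, h1, h2⟩ := largest (data 0 hF)
  have hsmall : ∀ ε : ℝ, 0 < ε → ∀ᶠ u in atTop,
      -Real.exp (ε * u) ≤ aak (SS a b) (Ap a b) 0 u := by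
    intro ε hε
    have h3 := Real.tendsto_exp_atTop.eventually (h (ε / 2) (half_pos hε))
    have h4 : Tendsto (fun u : ℝ => Real.exp (ε / 2 * u)) atTop atTop :=
      Real.tendsto_exp_atTop.comp (tendsto_id.const_mul_atTop (half_pos hε))
    filter_upwards [h3, h4.eventually (eventually_ge_atTop (1 + B)), eventually_gt_atTop 0]
      with u h3 h4 hu
    have h5 := (abs_le.mp (hB 0 u hu)).2
    have hp : pk 0 u = 1 := by unfold pk; simp
    rw [hp, mul_one, mul_one] at h5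
    have h7 : Real.exp u ^ (ε / 2) = Real.exp (ε / 2 * u) := by
      rw [← Real.exp_mul]; congr 1; ring
    rw [h7] at h3
    have h8 : Real.exp (ε * u) = Real.exp (ε / 2 * u) * Real.exp (ε / 2 * u) := by
      rw [← Real.exp_add]; congr 1; ring
    have h9 : (1 + B) * Real.exp (ε / 2 * u) ≤ Real.exp (ε / 2 * u) * Real.exp (ε / 2 * u) :=
      mul_le_mul_of_nonneg_right h4 (Real.exp_pos _).le
    have h10 : B ≤ B * Real.exp (ε / 2 * u) :=
      le_mul_of_one_le_right hB0 (Real.one_le_exp (by positivity))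
    rw [h8]
    linarith
  have hconv := conv_lower (data 0 hF) (hloc a b 0) h0 h1 fun ε hε => by
    filter_upwards [hsmall ε hε, eventually_gt_atTop 0] with u h3 hu
    refine le_trans (neg_le_neg (Real.exp_le_exp.2 ?_)) h3
    nlinarith
  have hnv : ∀ z : ℂ, w0 < z.re → PhiF a b F z ≠ 0 := by
    intro z hz
    rw [(data 0 hF).eq_of_conv h0 hconv z hz]
    exact Complex.exp_ne_zero _
  have hnv' : ∀ s : ℂ, 1 + w0 < s.re → F s ≠ 0 := by
    intro s hs
    have h3 := hnv (s - 1) (by simp; linarith)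
    unfold PhiF at h3
    rw [add_sub_cancel] at h3
    exact left_ne_zero_of_mul h3
  rcases h0.eq_or_lt with h | h'
  · exact hnv' s (by linarith)
  · exfalso
    refine hdom ⟨1 + w0, by linarith, ?_, hnv'⟩
    have h3 := h2 h'
    unfold PhiF at h3
    push_cast
    rcases mul_eq_zero.1 h3 with h4 | h4
    · exact h4
    · exact absurd h4 (small_ne_zero_real h'.le)

/-- slowly changing subexponential sequences -/
structure Slow (f : ℕ → ℝ) : Prop where
  pos : ∀ᶠ n in atTop, 0 < f n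
  ratio : Tendsto (fun n => f (n + 1) / f n) atTop (𝓝 1)
  sub : ∀ ε : ℝ, 0 < ε → ∀ᶠ n : ℕ in atTop, |Real.log (f n)| ≤ (n : ℝ) ^ ε

/-- the quotient by a sequence -/
noncomputable def qf (a b : ℤ) (f : ℕ → ℝ) (n : ℕ) : ℝ := bsdProduct a b (n : ℝ) / f n

/-- limit points along integers -/
def LPf (a b : ℤ) (f : ℕ → ℝ) (A : ℝ) : Prop :=
  ∃ n : ℕ → ℕ, Tendsto n atTop atTop ∧ Tendsto (fun k => qf a b f (n k)) atTop (𝓝 A)

theorem LPf.freq {f : ℕ → ℝ} {A : ℝ} (h : LPf a b f A) {ε : ℝ} (hε : 0 < ε) :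
    ∃ᶠ n : ℕ in atTop, |qf a b f n - A| < ε := by
  obtain ⟨n, hn, hg⟩ := h
  have h2 : ∀ᶠ k in atTop, |qf a b f (n k) - A| < ε := by
    have := (Metric.tendsto_nhds.1 hg) ε hε
    simpa [Real.dist_eq] using this
  exact hn.frequently h2.frequently

theorem LPf.of_freq {f : ℕ → ℝ} {A : ℝ}
    (h : ∀ ε : ℝ, 0 < ε → ∃ᶠ n : ℕ in atTop, |qf a b f n - A| < ε) : LPf a b f A := by
  have h1 : MapClusterPt A atTop (fun n : ℕ => qf a b f n) := by
    rw [mapClusterPt_iff_frequently]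
    intro s hs
    obtain ⟨ε, hε, hs'⟩ := Metric.mem_nhds_iff.1 hs
    refine (h ε hε).mono fun n hn => hs' ?_
    rw [Metric.mem_ball, Real.dist_eq]
    exact hn
  obtain ⟨ψ, h2, h3⟩ := TopologicalSpace.FirstCountableTopology.tendsto_subseq h1
  exact ⟨ψ, h2.tendsto_atTop, h3⟩

theorem qf_pos {f : ℕ → ℝ} (hf : ∀ᶠ n in atTop, 0 < f n) : ∀ᶠ n in atTop, 0 < qf a b f n := by
  filter_upwards [hf] with n hn
  exact div_pos (bsdProduct_pos _) hn

theorem qf_succ {f : ℕ → ℝ} (hf : ∀ᶠ n in atTop, 0 < f n)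
    (hr : Tendsto (fun n => f (n + 1) / f n) atTop (𝓝 1)) :
    Tendsto (fun n : ℕ => qf a b f (n + 1) / qf a b f n) atTop (𝓝 1) := by
  have h1 := (bsd_succ (a := a) (b := b)).div hr one_ne_zero
  rw [div_one] at h1
  refine h1.congr' ?_
  filter_upwards [hf, (tendsto_add_atTop_nat 1).eventually hf] with n h2 h3
  have hb := bsdProduct_pos (a := a) (b := b) (n : ℝ)
  unfold qf
  simp only [Pi.div_apply]
  field_simp

theorem LPf.of_brackets {f : ℕ → ℝ} {A : ℝ} (hf : ∀ᶠ n in atTop, 0 < f n)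
    (hr : Tendsto (fun n => f (n + 1) / f n) atTop (𝓝 1))
    (h1 : ∀ ε : ℝ, 0 < ε → ∃ᶠ n : ℕ in atTop, qf a b f n < A + ε)
    (h2 : ∀ ε : ℝ, 0 < ε → ∃ᶠ n : ℕ in atTop, A - ε < qf a b f n) : LPf a b f A :=
  LPf.of_freq fun _ hε => cluster (qf_pos hf) (qf_succ hf hr) h1 h2 hε

theorem LPf.between {f : ℕ → ℝ} (hf : ∀ᶠ n in atTop, 0 < f n)
    (hr : Tendsto (fun n => f (n + 1) / f n) atTop (𝓝 1)) {u v w : ℝ} (huv : u ≤ v) (hvw : v ≤ w)
    (hu : LPf a b f u) (hw : LPf a b f w) : LPf a b f v := by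
  refine LPf.of_brackets hf hr (fun ε hε => ?_) (fun ε hε => ?_)
  · refine (hu.freq hε).mono fun n hn => ?_
    have := (abs_lt.1 hn).2
    linarith
  · refine (hw.freq hε).mono fun n hn => ?_
    have := (abs_lt.1 hn).1
    linarith

theorem const_sub (c : ℝ) {ε : ℝ} (hε : 0 < ε) :
    ∀ᶠ x : ℝ in atTop, c + x ^ (ε / 2) ≤ x ^ ε := by
  have h1 : Tendsto (fun x : ℝ => x ^ (ε / 2)) atTop atTop := tendsto_rpow_atTop (half_pos hε)
  filter_upwards [h1.eventually (eventually_ge_atTop (1 + |c|)), eventually_gt_atTop 0] with x h2 hx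
  have h3 : x ^ ε = x ^ (ε / 2) * x ^ (ε / 2) := by
    rw [← Real.rpow_add hx]; congr 1; ring
  rw [h3]
  have h4 := le_abs_self c
  have h5 := abs_nonneg c
  nlinarith

/-- **Wildness.** -/
theorem wild {F : ℂ → ℂ} (hF : IsLSeries a b F) (hdom : ¬ RealDom F)
    (hz : ∃ s : ℂ, 1 < s.re ∧ F s = 0) {f : ℕ → ℝ} (hf : Slow f) {A : ℝ} (hA : 0 ≤ A) :
    LPf a b f A := by
  obtain ⟨s, hs, hs0⟩ := hz
  refine LPf.of_brackets hf.pos hf.ratio (fun ε hε => ?_) (fun ε hε => ?_)
  · by_contra hcon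
    rw [not_frequently] at hcon
    refine no_zeros_lower hF hdom (fun η hη => ?_) hs hs0
    have h1 : ∀ᶠ n : ℕ in atTop, Real.log (A + ε) - (n : ℝ) ^ (η / 2) ≤
        Real.log (bsdProduct a b (n : ℝ)) := by
      filter_upwards [hcon, hf.pos, hf.sub (η / 2) (half_pos hη)] with n h1 h2 h3
      push Not at h1
      unfold qf at h1
      rw [le_div_iff₀ h2] at h1
      have h4 := Real.log_le_log (by positivity) h1
      rw [Real.log_mul (by linarith) h2.ne'] at h4
      have := (abs_le.1 h3).1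
      linarith
    filter_upwards [tendsto_nat_floor_atTop.eventually h1, const_sub (-Real.log (A + ε)) hη,
      eventually_gt_atTop 0] with x h2 h3 hx
    rw [bsd_floor, log_bsdProduct] at h2
    have h4 : ((⌊x⌋₊ : ℕ) : ℝ) ^ (η / 2) ≤ x ^ (η / 2) :=
      Real.rpow_le_rpow (Nat.cast_nonneg _) (Nat.floor_le hx.le) (half_pos hη).le
    linarith
  · by_contra hcon
    rw [not_frequently] at hcon
    refine no_zeros hF 0 (fun η hη => ?_) hs hs0
    have h1 : ∀ᶠ n : ℕ in atTop, Real.log (bsdProduct a b (n : ℝ)) ≤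
        Real.log (A + 1) + (n : ℝ) ^ (η / 2) := by
      filter_upwards [hcon, hf.pos, hf.sub (η / 2) (half_pos hη)] with n h1 h2 h3
      push Not at h1
      unfold qf at h1
      rw [div_le_iff₀ h2] at h1
      have h5 : bsdProduct a b (n : ℝ) ≤ (A + 1) * f n :=
        h1.trans (mul_le_mul_of_nonneg_right (by linarith) h2.le)
      have h4 := Real.log_le_log (bsdProduct_pos _) h5
      rw [Real.log_mul (by linarith) h2.ne'] at h4
      have := (abs_le.1 h3).2
      linarith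
    filter_upwards [tendsto_nat_floor_atTop.eventually h1, const_sub (Real.log (A + 1)) hη,
      eventually_gt_atTop 0] with x h2 h3 hx
    rw [bsd_floor, log_bsdProduct] at h2
    have h4 : ((⌊x⌋₊ : ℕ) : ℝ) ^ (η / 2) ≤ x ^ (η / 2) :=
      Real.rpow_le_rpow (Nat.cast_nonneg _) (Nat.floor_le hx.le) (half_pos hη).le
    linarith

theorem loglog_sub (ρ : ℝ) {ε : ℝ} (hε : 0 < ε) :
    ∀ᶠ x : ℝ in atTop, |ρ * Real.log (Real.log x)| ≤ x ^ ε := by
  have h1 := (isLittleO_log_rpow_atTop hε).bound (show (0 : ℝ) < 1 / (|ρ| + 1) by positivity)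
  filter_upwards [h1, eventually_ge_atTop (Real.exp 1)] with x h4 h5
  have hx : 0 < x := lt_of_lt_of_le (Real.exp_pos 1) h5
  have hl : 1 ≤ Real.log x := by
    rw [Real.le_log_iff_exp_le hx]; exact h5
  rw [Real.norm_of_nonneg (by linarith), Real.norm_of_nonneg (by positivity)] at h4
  have hll : 0 ≤ Real.log (Real.log x) := Real.log_nonneg hl
  have hle : Real.log (Real.log x) ≤ Real.log x :=
    (Real.log_le_sub_one_of_pos (by linarith)).trans (by linarith)
  rw [abs_mul, abs_of_nonneg hll]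
  calc |ρ| * Real.log (Real.log x) ≤ |ρ| * Real.log x :=
        mul_le_mul_of_nonneg_left hle (abs_nonneg _)
    _ ≤ |ρ| * (1 / (|ρ| + 1) * x ^ ε) := by gcongr
    _ = (|ρ| / (|ρ| + 1)) * x ^ ε := by ring
    _ ≤ 1 * x ^ ε := by
        gcongr
        rw [div_le_one (by positivity)]
        linarith
    _ = _ := one_mul _

/-- powers of the logarithm are slow -/
theorem slow_log (ρ : ℝ) : Slow (fun n : ℕ => Real.log (n : ℝ) ^ ρ) where
  pos := by
    filter_upwards [eventually_ge_atTop 2] with n hn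
    exact Real.rpow_pos_of_pos (Real.log_pos (by exact_mod_cast (by omega : 1 < n))) _
  ratio := by
    have h1 := (log_succ.inv₀ one_ne_zero).rpow_const (p := ρ) (Or.inl (by norm_num))
    rw [inv_one, Real.one_rpow] at h1
    refine h1.congr' ?_
    filter_upwards [eventually_ge_atTop 2] with n hn
    have hn' : (2 : ℝ) ≤ n := by exact_mod_cast hn
    have hl : 0 < Real.log (n : ℝ) := Real.log_pos (by linarith)
    have hl2 : 0 < Real.log ((n + 1 : ℕ) : ℝ) := Real.log_pos (by push_cast; linarith)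
    rw [inv_div, Real.div_rpow hl2.le hl.le]
  sub := by
    intro ε hε
    filter_upwards [tendsto_natCast_atTop_atTop.eventually (loglog_sub ρ hε),
      eventually_ge_atTop 2] with n h1 hn
    rw [Real.log_rpow (Real.log_pos (by exact_mod_cast (by omega : 1 < n)))]
    exact h1

/-- one-sided upper bounds imply convergence -/
theorem conv_upper {c0 : ℝ} {m : ℕ} {a : ℝ → ℝ} {Φ G : ℂ → ℂ} (D : Data m a Φ G c0)
    (hloc : ∀ u, |a u| ≤ Real.exp (2 * u) + Real.exp u) {w0 : ℝ} (hw0 : 0 ≤ w0)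
    (h : ∀ ε > 0, ∀ᶠ u in atTop, a u ≤ Real.exp ((w0 + ε) * u)) : ∀ w > w0, LInt a w := by
  intro w hw
  set e : ℝ := (w - w0) / 2 with he
  have he0 : 0 < e := by rw [he]; linarith
  obtain ⟨U, hU⟩ := eventually_atTop.mp (h e he0)
  set V : ℝ := max U 1 with hV
  set K : ℝ := Real.exp (2 * V) + Real.exp V with hK
  set κ : ℝ → ℝ := fun u => ex (w0 + e) u + K * ex 0 u with hκ
  have hκm : Measurable κ := (ex_meas _).add ((ex_meas 0).const_mul _)
  have hκi : ∀ w' > w0 + e, LInt κ w' := fun w' hw' =>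
    (ex_LInt hw').add ((ex_LInt (by linarith)).const_mul _)
  refine D.core_upper (by linarith) hκm hκi (fun u hu => ?_) w (by rw [he]; linarith)
  rw [hκ]
  simp only [ex, zero_mul, Real.exp_zero, mul_one]
  rcases le_or_gt V u with h2 | h2
  · have h3 := hU u ((le_max_left _ _).trans h2)
    have : 0 ≤ K := by positivity
    linarith
  · have h3 := (abs_le.mp (hloc u)).2
    have h5 : Real.exp u ≤ Real.exp V := Real.exp_le_exp.mpr h2.le
    have h5' : Real.exp (2 * u) ≤ Real.exp (2 * V) := Real.exp_le_exp.mpr (by linarith)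
    have := Real.exp_pos ((w0 + e) * u)
    linarith

theorem exp_absorb {B θ ε : ℝ} (hB : 0 ≤ B) (hθ : 0 ≤ θ) (hε : 0 < ε) :
    ∀ᶠ u : ℝ in atTop, Real.exp u ^ θ + B ≤ Real.exp ((θ + ε) * u) := by
  have h4 : Tendsto (fun u : ℝ => Real.exp (ε * u)) atTop atTop :=
    Real.tendsto_exp_atTop.comp (tendsto_id.const_mul_atTop hε)
  filter_upwards [h4.eventually (eventually_ge_atTop (1 + B)), eventually_gt_atTop 0] with u h4 hu
  have h7 : Real.exp u ^ θ = Real.exp (θ * u) := by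
    rw [← Real.exp_mul]; congr 1; ring
  have h8 : Real.exp ((θ + ε) * u) = Real.exp (θ * u) * Real.exp (ε * u) := by
    rw [← Real.exp_add]; congr 1; ring
  have h9 : 1 ≤ Real.exp (θ * u) := Real.one_le_exp (by positivity)
  rw [h7, h8]
  nlinarith

/-- **Large values.** -/
theorem omega_plus {F : ℂ → ℂ} (hF : IsLSeries a b F) {θ : ℝ} (hθ : 0 ≤ θ)
    (hz : ∃ s : ℂ, 1 + θ < s.re ∧ F s = 0) :
    ∃ᶠ x : ℝ in atTop, x ^ θ < rieszMean a b 0 x := by
  by_contra hcon
  rw [not_frequently] at hcon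
  obtain ⟨s, hs, hs0⟩ := hz
  obtain ⟨B, hB0, hB⟩ := riesz_approx a b
  have hconv := conv_upper (data 0 hF) (hloc a b 0) hθ fun ε hε => by
    filter_upwards [Real.tendsto_exp_atTop.eventually hcon, exp_absorb hB0 hθ hε,
      eventually_gt_atTop 0] with u h1 h2 hu
    have h5 := (abs_le.mp (hB 0 u hu)).1
    have hp : pk 0 u = 1 := by unfold pk; simp
    rw [hp, mul_one, mul_one] at h5
    push Not at h1
    linarith
  have h3 : PhiF a b F (s - 1) ≠ 0 := by
    rw [(data 0 hF).eq_of_conv hθ hconv (s - 1) (by simp; linarith)]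
    exact Complex.exp_ne_zero _
  unfold PhiF at h3
  rw [add_sub_cancel] at h3
  exact left_ne_zero_of_mul h3 hs0

/-- **Small values.** -/
theorem omega_minus {F : ℂ → ℂ} (hF : IsLSeries a b F) {θ : ℝ} (hθ : 0 ≤ θ)
    (hz : ∃ s : ℂ, 1 + θ < s.re ∧ F s = 0) (hne : ∀ s : ℝ, 1 + θ < s → F s ≠ 0) :
    ∃ᶠ x : ℝ in atTop, rieszMean a b 0 x < -x ^ θ := by
  by_contra hcon
  rw [not_frequently] at hcon
  obtain ⟨s, hs, hs0⟩ := hz
  obtain ⟨B, hB0, hB⟩ := riesz_approx a b
  have hne' : ∀ w : ℝ, θ < w → PhiF a b F w ≠ 0 := by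
    intro w hw
    unfold PhiF
    refine mul_ne_zero ?_ (small_ne_zero_real (by linarith))
    have := hne (1 + w) (by linarith)
    push_cast at this
    exact this
  have hconv := conv_lower (data 0 hF) (hloc a b 0) hθ hne' fun ε hε => by
    filter_upwards [Real.tendsto_exp_atTop.eventually hcon, exp_absorb hB0 hθ hε,
      eventually_gt_atTop 0] with u h1 h2 hu
    have h5 := (abs_le.mp (hB 0 u hu)).2
    have hp : pk 0 u = 1 := by unfold pk; simp
    rw [hp, mul_one, mul_one] at h5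
    push Not at h1
    linarith
  have h3 : PhiF a b F (s - 1) ≠ 0 := by
    rw [(data 0 hF).eq_of_conv hθ hconv (s - 1) (by simp; linarith)]
    exact Complex.exp_ne_zero _
  unfold PhiF at h3
  rw [add_sub_cancel] at h3
  exact left_ne_zero_of_mul h3 hs0

/-! ### one-sided limits -/

theorem gq_rpow (r : ℕ) (x : ℝ) : bsdProduct a b x / Real.log x ^ (r : ℝ) = gq a b r x := by
  unfold gq; rw [Real.rpow_natCast]

/-- the lower bound `(log x)^ρ` implies the Riemann hypothesis -/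
theorem rh_of_lower {F : ℂ → ℂ} (hF : IsLSeries a b F) (hdom : ¬ RealDom F) {ρ : ℝ}
    (h : ∀ᶠ x : ℝ in atTop, Real.log x ^ ρ ≤ bsdProduct a b x) {s : ℂ} (hs : 1 < s.re) :
    F s ≠ 0 := by
  refine no_zeros_lower hF hdom (fun ε hε => ?_) hs
  filter_upwards [h, loglog_sub ρ hε, eventually_gt_atTop (Real.exp 1)] with x h1 h2 h3
  have hx : 0 < x := lt_trans (Real.exp_pos 1) h3
  have hl : 1 < Real.log x := by rwa [Real.lt_log_iff_exp_lt hx]
  have h4 := Real.log_le_log (Real.rpow_pos_of_pos (by linarith) _) h1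
  rw [Real.log_rpow (by linarith), log_bsdProduct] at h4
  have := (abs_le.1 h2).1
  linarith

/-- limit zero -/
theorem lim_zero (hΔ : 4 * a ^ 3 + 27 * b ^ 2 ≠ 0) (hrs : Tendsto (rsSum a b) atTop (𝓝 0))
    {F : ℂ → ℂ} (hF : IsLSeries a b F) {r : ℕ} (hr : analyticOrderAt F 1 = r) {ρ : ℝ}
    (h : Tendsto (fun x : ℝ => bsdProduct a b x / Real.log x ^ ρ) atTop (𝓝 0)) :
    (∀ s : ℂ, 1 < s.re → F s ≠ 0) ∧ (r : ℝ) < ρ := by
  have h1 : ∀ ε : ℝ, 0 < ε → ∀ᶠ x : ℝ in atTop, bsdProduct a b x ≤ Real.log x ^ (ρ + ε) := by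
    intro ε hε
    filter_upwards [h.eventually (gt_mem_nhds one_pos), eventually_gt_atTop (Real.exp 1)]
      with x h1 h3
    have hx : 0 < x := lt_trans (Real.exp_pos 1) h3
    have hl : 1 < Real.log x := by rwa [Real.lt_log_iff_exp_lt hx]
    have hp : 0 < Real.log x ^ ρ := Real.rpow_pos_of_pos (by linarith) _
    rw [div_lt_one hp] at h1
    exact h1.le.trans (Real.rpow_le_rpow_of_exponent_le hl.le (by linarith))
  obtain ⟨h2, h3⟩ := one_upper hF hr h1
  refine ⟨h2, lt_of_le_of_ne h3 fun he => ?_⟩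
  rw [← he] at h
  simp only [gq_rpow] at h
  have hT := T1_pos hF hr
  have h4 := br_up hΔ hrs hF hr (A := T1 F r / 2) (by linarith)
  have h5 := h.eventually (gt_mem_nhds (show (0 : ℝ) < T1 F r / 2 by linarith))
  obtain ⟨x, e1, e2⟩ := (h4.and_eventually h5).exists
  linarith

/-- limit infinity -/
theorem lim_top (hΔ : 4 * a ^ 3 + 27 * b ^ 2 ≠ 0) (hrs : Tendsto (rsSum a b) atTop (𝓝 0))
    {F : ℂ → ℂ} (hF : IsLSeries a b F) (hdom : ¬ RealDom F) {r : ℕ}
    (hr : analyticOrderAt F 1 = r) {ρ : ℝ}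
    (h : Tendsto (fun x : ℝ => bsdProduct a b x / Real.log x ^ ρ) atTop atTop) :
    (∀ s : ℂ, 1 < s.re → F s ≠ 0) ∧ ρ < (r : ℝ) := by
  have h0 : ∀ᶠ x : ℝ in atTop, Real.log x ^ ρ ≤ bsdProduct a b x := by
    filter_upwards [h.eventually (eventually_ge_atTop 1), eventually_gt_atTop (Real.exp 1)]
      with x h1 h3
    have hx : 0 < x := lt_trans (Real.exp_pos 1) h3
    have hl : 1 < Real.log x := by rwa [Real.lt_log_iff_exp_lt hx]
    have hp : 0 < Real.log x ^ ρ := Real.rpow_pos_of_pos (by linarith) _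
    rwa [one_le_div hp] at h1
  have hRH : ∀ s : ℂ, 1 < s.re → F s ≠ 0 := fun s hs => rh_of_lower hF hdom h0 hs
  have hne : ∀ s : ℝ, 1 < s → F s ≠ 0 := fun s hs => hRH s (by simpa using hs)
  have h1 : ∀ ε : ℝ, 0 < ε → ∀ᶠ x : ℝ in atTop, Real.log x ^ (ρ - ε) ≤ bsdProduct a b x := by
    intro ε hε
    filter_upwards [h0, eventually_gt_atTop (Real.exp 1)] with x h1 h3
    have hx : 0 < x := lt_trans (Real.exp_pos 1) h3
    have hl : 1 < Real.log x := by rwa [Real.lt_log_iff_exp_lt hx]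
    exact (Real.rpow_le_rpow_of_exponent_le hl.le (by linarith)).trans h1
  have h3 := one_lower hF hr hne h1
  refine ⟨hRH, lt_of_le_of_ne h3 fun he => ?_⟩
  rw [he] at h
  simp only [gq_rpow] at h
  have h4 := br_down hΔ hrs hF hr hne (A := T1 F r + 1) (by linarith)
  obtain ⟨x, e1, e2⟩ := (h4.and_eventually (h.eventually (eventually_ge_atTop (T1 F r + 1)))).exists
  linarith

theorem lpf_of_lp {r : ℕ} {A : ℝ} (h : LP a b r A) :
    LPf a b (fun n : ℕ => Real.log (n : ℝ) ^ (r : ℝ)) A := by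
  refine LPf.of_freq fun ε hε => ?_
  refine (h.freq hε).mono fun n hn => ?_
  unfold qf
  rw [gq_rpow]
  exact hn

/-- Goldfeld's constant is a limit point if there is no dominating real zero -/
theorem limit_point_dom (hΔ : 4 * a ^ 3 + 27 * b ^ 2 ≠ 0) (hrs : Tendsto (rsSum a b) atTop (𝓝 0))
    {F : ℂ → ℂ} (hF : IsLSeries a b F) (hdom : ¬ RealDom F) {r : ℕ}
    (hr : analyticOrderAt F 1 = r) :
    LPf a b (fun n : ℕ => Real.log (n : ℝ) ^ (r : ℝ)) (T1 F r) := by
  by_cases hz : ∃ s : ℂ, 1 < s.re ∧ F s = 0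
  · exact wild hF hdom hz (slow_log r) (T1_pos hF hr).le
  · push Not at hz
    exact lpf_of_lp (limit_point hΔ hrs hF hr fun s hs => hz s (by simpa using hs))

/-- convergence or an interval of limit points -/
theorem interval {f : ℕ → ℝ} (hf : ∀ᶠ n in atTop, 0 < f n)
    (hr : Tendsto (fun n => f (n + 1) / f n) atTop (𝓝 1)) {A : ℝ} (hA : LPf a b f A)
    (hn : ¬ Tendsto (fun n => qf a b f n) atTop (𝓝 A)) :
    ∃ B : ℝ, B ≠ A ∧ 0 ≤ B ∧ ∀ v : ℝ, v ∈ Set.uIcc A B → LPf a b f v := by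
  have h1 : ∃ ε : ℝ, 0 < ε ∧ ∃ᶠ n in atTop, ε ≤ |qf a b f n - A| := by
    by_contra hcon
    push Not at hcon
    refine hn (Metric.tendsto_nhds.2 fun ε hε => ?_)
    have := hcon ε hε
    filter_upwards [this] with n hn
    rw [Real.dist_eq]
    exact hn
  obtain ⟨ε, hε, h2⟩ := h1
  have h3 : (∃ᶠ n in atTop, A + ε ≤ qf a b f n) ∨ ∃ᶠ n in atTop, qf a b f n ≤ A - ε := by
    rw [← frequently_or_distrib]
    refine h2.mono fun n hn => ?_
    rcases le_abs'.1 hn with h | h
    · right; linarith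
    · left; linarith
  rcases h3 with h3 | h3
  · have hB : LPf a b f (A + ε) := by
      refine LPf.of_brackets hf hr (fun δ hδ => ?_) (fun δ hδ => ?_)
      · refine (hA.freq (ε := ε) hε).mono fun n hn => ?_
        have := (abs_lt.1 hn).2
        linarith
      · exact h3.mono fun n hn => by linarith
    refine ⟨A + ε, by linarith, ?_, ?_⟩
    · have hA0 : 0 ≤ A := by
        obtain ⟨n, hn, hg⟩ := hA
        refine ge_of_tendsto hg ?_
        filter_upwards [hn.eventually (qf_pos (a := a) (b := b) hf)] with k hk using hk.le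
      linarith
    · intro v hv
      rw [Set.uIcc_of_le (by linarith)] at hv
      exact hA.between hf hr hv.1 hv.2 hB
  · have hB : LPf a b f (A - ε) := by
      refine LPf.of_brackets hf hr (fun δ hδ => ?_) (fun δ hδ => ?_)
      · exact h3.mono fun n hn => by linarith
      · refine (hA.freq (ε := ε) hε).mono fun n hn => ?_
        have := (abs_lt.1 hn).1
        linarith
    refine ⟨A - ε, by linarith, ?_, ?_⟩
    · obtain ⟨n, hn1, hn2⟩ := (h3.and_eventually (qf_pos (a := a) (b := b) hf)).exists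
      linarith
    · intro v hv
      rw [Set.uIcc_of_ge (by linarith)] at hv
      exact LPf.between hf hr hv.1 hv.2 hB hA

end Pool.Agent.D0H40.PL
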